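import Pool.Agent.H927.QP.St

/-!
# The syzygy `u0` and its second order part: the numerical facts `S_syz` and `S_num`

Elements of `M` and `M ⊗ M` are represented by tries; both facts are checked by the kernel.
-/

set_option autoImplicit false

open scoped TensorProduct

namespace Pool.Agent.H927.QP.Part_syz

inductive Tr1 : Type
  | nil : Tr1
  | node : ℤ → ℤ → Tr1 → Tr1 → Tr1 → Tr1

inductive Tr2 : Type
  | nil : Tr2
  | node : Tr1 → Tr1 → Tr2 → Tr2 → Tr2 → Tr2

namespace Tr1

def add : Tr1 → Tr1 → Tr1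
  | nil, s => s
  | node a b t0 t1 t2, nil => node a b t0 t1 t2
  | node a b t0 t1 t2, node a' b' s0 s1 s2 =>
    node (a + a') (b + b') (add t0 s0) (add t1 s1) (add t2 s2)

def smul (n : ℤ) : Tr1 → Tr1
  | nil => nil
  | node a b t0 t1 t2 => node (n * a) (n * b) (smul n t0) (smul n t1) (smul n t2)

/-- left multiplication by `x_c` -/
def X (c : Fin 3) : Tr1 → Tr1
  | nil => nil
  | node a b t0 t1 t2 =>
    if c = 0 then node 0 0 (node a b t0 t1 t2) nil nil
    else if c = 1 then node 0 0 nil (node a b t0 t1 t2) nil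
    else node 0 0 nil nil (node a b t0 t1 t2)

def sel (c : Fin 3) (t0 t1 t2 : Tr1) : Tr1 := if c = 0 then t0 else if c = 1 then t1 else t2

/-- multiplication by `[x_l, x_k]` -/
def cm (k l : Fin 3) (t : Tr1) : Tr1 := add (X l (X k t)) (smul (-1) (X k (X l t)))

/-- `a z_0 + b z_1` -/
def lf (a b : ℤ) : Tr1 := if a = 0 ∧ b = 0 then nil else node a b nil nil nil

def D (k l : Fin 3) : Tr1 → Tr1
  | nil => nil
  | node a b t0 t1 t2 =>
    add (node 0 0 (D k l t0) (D k l t1) (D k l t2))
      (add (X l (lf (bco k 0 * (aco k l 0 * a + aco k l 1 * b))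
        (bco k 1 * (aco k l 0 * a + aco k l 1 * b)))) (cm k l (sel k t0 t1 t2)))

def E (k l : Fin 3) : Tr1 → Tr1
  | nil => nil
  | node _ _ t0 t1 t2 =>
    add (node 0 0 (E k l t0) (E k l t1) (E k l t2))
      (cm k l (add (D k l (sel k t0 t1 t2)) (smul (-1) (X l (sel k t0 t1 t2)))))

def size : Tr1 → ℕ
  | nil => 0
  | node _ _ t0 t1 t2 => 1 + size t0 + size t1 + size t2

def isZero : Tr1 → Bool
  | nil => true
  | node a b t0 t1 t2 => (a == 0) && (b == 0) && isZero t0 && isZero t1 && isZero t2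

end Tr1

namespace Tr2

def add : Tr2 → Tr2 → Tr2
  | nil, s => s
  | node a b t0 t1 t2, nil => node a b t0 t1 t2
  | node a b t0 t1 t2, node a' b' s0 s1 s2 =>
    node (a.add a') (b.add b') (add t0 s0) (add t1 s1) (add t2 s2)

def smul (n : ℤ) : Tr2 → Tr2
  | nil => nil
  | node a b t0 t1 t2 => node (a.smul n) (b.smul n) (smul n t0) (smul n t1) (smul n t2)

def X (c : Fin 3) : Tr2 → Tr2
  | nil => nil
  | node a b t0 t1 t2 =>
    if c = 0 then node .nil .nil (node a b t0 t1 t2) nil nil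
    else if c = 1 then node .nil .nil nil (node a b t0 t1 t2) nil
    else node .nil .nil nil nil (node a b t0 t1 t2)

def sel (c : Fin 3) (t0 t1 t2 : Tr2) : Tr2 := if c = 0 then t0 else if c = 1 then t1 else t2

def cm (k l : Fin 3) (t : Tr2) : Tr2 := add (X l (X k t)) (smul (-1) (X k (X l t)))

def lf (a b : Tr1) : Tr2 := node a b nil nil nil

/-- `aco k l 0 • a + aco k l 1 • b` -/
def co (k l : Fin 3) (a b : Tr1) : Tr1 := (a.smul (aco k l 0)).add (b.smul (aco k l 1))

def D (k l : Fin 3) : Tr2 → Tr2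
  | nil => nil
  | node a b t0 t1 t2 =>
    add (node (a.D k l) (b.D k l) (D k l t0) (D k l t1) (D k l t2))
      (add (X l (lf ((co k l a b).smul (bco k 0)) ((co k l a b).smul (bco k 1))))
        (cm k l (sel k t0 t1 t2)))

def E (k l : Fin 3) : Tr2 → Tr2
  | nil => nil
  | node a b t0 t1 t2 =>
    add (node (a.E k l) (b.E k l) (E k l t0) (E k l t1) (E k l t2))
      (add (X l (lf ((co k l (a.D k l) (b.D k l)).smul (bco k 0))
          ((co k l (a.D k l) (b.D k l)).smul (bco k 1))))
        (cm k l (add (D k l (sel k t0 t1 t2)) (smul (-1) (X l (sel k t0 t1 t2))))))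

def size : Tr2 → ℕ
  | nil => 0
  | node a b t0 t1 t2 => a.size + b.size + size t0 + size t1 + size t2

def isZero : Tr2 → Bool
  | nil => true
  | node a b t0 t1 t2 => a.isZero && b.isZero && isZero t0 && isZero t1 && isZero t2

end Tr2

/-- `z_0 ∧ z_1` -/
def omT : Tr2 := .node (.node 0 1 .nil .nil .nil) (.node (-1) 0 .nil .nil .nil) .nil .nil .nil

/-- the words of `L` with first letter `l`, without this letter -/
def tl (l : Fin 3) : List (ℤ × List (Fin 3)) → List (ℤ × List (Fin 3))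
  | [] => []
  | (_, []) :: L => tl l L
  | (a, c :: w) :: L => if c = l then (a, w) :: tl l L else tl l L

def hor : ℕ → List (ℤ × List (Fin 3)) → Tr2
  | _, [] => .nil
  | 0, p :: L => omT.smul (((p :: L).map fun q => q.1).sum)
  | n + 1, p :: L => ((hor n (tl 0 (p :: L))).D (sk 0) 0).add
      (((hor n (tl 1 (p :: L))).D (sk 1) 1).add ((hor n (tl 2 (p :: L))).D (sk 2) 2))

def val1 (i : Fin 2) (r : List (Fin 3)) : Tr1 → ℤ
  | .nil => 0
  | .node a b t0 t1 t2 =>
    (if a = 0 then 0 else if r ∈ gl i 0 then a else 0) +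
      (if b = 0 then 0 else if r ∈ gl i 1 then b else 0) +
      val1 i (r ++ [0]) t0 + val1 i (r ++ [1]) t1 + val1 i (r ++ [2]) t2

def val2 (r : List (Fin 3)) : Tr2 → ℤ
  | .nil => 0
  | .node a b t0 t1 t2 => val1 0 r a + val1 1 r b + val2 (0 :: r) t0 + val2 (1 :: r) t1 +
      val2 (2 :: r) t2

def total : ℤ := val2 [] ((hor 5 (tl 0 u0)).E (sk 0) 0) + val2 [] ((hor 5 (tl 1 u0)).E (sk 1) 1) +
  val2 [] ((hor 5 (tl 2 u0)).E (sk 2) 2)


noncomputable section

variable (R : Type) [CommRing R]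

/-! ### derivations -/

lemma hat_x (k l c : Fin 3) : hat R k l (x R c) = if c = k then
    Polynomial.C (x R k) + Polynomial.X * Polynomial.C (x R l * x R k - x R k * x R l)
      - Polynomial.X ^ 2 * Polynomial.C ((x R l * x R k - x R k * x R l) * x R l)
    else Polynomial.C (x R c) := liftA_x R _ c

/-- the value of the derivation on a generator -/
def dx (k l c : Fin 3) : FA R := if c = k then x R l * x R k - x R k * x R l else 0

lemma coeff_x0 (k l c : Fin 3) : (hat R k l (x R c)).coeff 0 = x R c := by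
  rw [hat_x]
  split_ifs with h
  · subst h
    simp
  · simp

lemma del_x (k l c : Fin 3) : del R k l (x R c) = dx R k l c := by
  change (hat R k l (x R c)).coeff 1 = _
  rw [hat_x]
  unfold dx
  split_ifs with h
  · rw [Polynomial.coeff_sub, Polynomial.coeff_add, Polynomial.coeff_C, if_neg one_ne_zero,
      Polynomial.coeff_X_mul, Polynomial.coeff_C_zero, zero_add, pow_two, mul_assoc,
      Polynomial.coeff_X_mul, Polynomial.mul_coeff_zero, Polynomial.coeff_X_zero, zero_mul,
      sub_zero]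
  · rw [Polynomial.coeff_C, if_neg one_ne_zero]

lemma sec_x (k l c : Fin 3) : sec R k l (x R c) = - (dx R k l c * x R l) := by
  change (hat R k l (x R c)).coeff 2 = _
  rw [hat_x]
  unfold dx
  split_ifs with h
  · rw [Polynomial.coeff_sub, Polynomial.coeff_add, Polynomial.coeff_C, if_neg two_ne_zero,
      Polynomial.coeff_X_mul, Polynomial.coeff_C, if_neg one_ne_zero, pow_two, mul_assoc,
      Polynomial.coeff_X_mul, Polynomial.coeff_X_mul, Polynomial.coeff_C_zero, zero_add, zero_sub]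
  · rw [Polynomial.coeff_C, if_neg two_ne_zero, zero_mul, neg_zero]

lemma coeff_zero' (k l : Fin 3) (a : FA R) : (hat R k l a).coeff 0 = a := by
  refine indA R (p := fun a => (hat R k l a).coeff 0 = a) ?_ ?_ ?_ ?_ a
  · intro r
    rw [AlgHom.commutes]
    rw [Polynomial.algebraMap_apply, Polynomial.coeff_C_zero]
  · intro c
    exact coeff_x0 R k l c
  · intro a b ha hb
    rw [map_add, Polynomial.coeff_add, ha, hb]
  · intro a b ha hb
    rw [map_mul, Polynomial.mul_coeff_zero, ha, hb]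

lemma del_mul (k l : Fin 3) (a b : FA R) :
    del R k l (a * b) = del R k l a * b + a * del R k l b := by
  change (hat R k l (a * b)).coeff 1 = (hat R k l a).coeff 1 * b + a * (hat R k l b).coeff 1
  rw [map_mul, Polynomial.mul_coeff_one, coeff_zero', coeff_zero']
  abel

lemma sec_mul (k l : Fin 3) (a b : FA R) :
    sec R k l (a * b) = sec R k l a * b + del R k l a * del R k l b + a * sec R k l b := by
  change (hat R k l (a * b)).coeff 2 = (hat R k l a).coeff 2 * b +
    (hat R k l a).coeff 1 * (hat R k l b).coeff 1 + a * (hat R k l b).coeff 2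
  rw [map_mul, Polynomial.coeff_mul, Finset.Nat.antidiagonal_succ, Finset.sum_cons,
    Finset.sum_map, Finset.Nat.antidiagonal_succ, Finset.sum_cons, Finset.sum_map,
    Finset.Nat.antidiagonal_zero, Finset.sum_singleton]
  simp only [Function.Embedding.prodMap, Function.Embedding.coeFn_mk, Prod.map_apply,
    Function.Embedding.refl_apply, Nat.succ_eq_add_one, zero_add, Nat.reduceAdd]
  rw [coeff_zero', coeff_zero']
  abel

lemma del_int (k l : Fin 3) (n : ℤ) : del R k l (n : FA R) = 0 := by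
  change (hat R k l (n : FA R)).coeff 1 = 0
  rw [map_intCast, ← map_intCast (Polynomial.C (R := FA R)), Polynomial.coeff_C, if_neg one_ne_zero]

lemma sec_int (k l : Fin 3) (n : ℤ) : sec R k l (n : FA R) = 0 := by
  change (hat R k l (n : FA R)).coeff 2 = 0
  rw [map_intCast, ← map_intCast (Polynomial.C (R := FA R)), Polynomial.coeff_C, if_neg two_ne_zero]

/-! ### the operators on `M` -/

/-- multiplication by `del x_c` -/
def cmM (k l c : Fin 3) : M R →ₗ[R] M R :=
  if c = k then lx R l ∘ₗ lx R k - lx R k ∘ₗ lx R l else 0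

lemma cmM_apply (k l c : Fin 3) (m : M R) (j : Fin 2) : cmM R k l c m j = dx R k l c * m j := by
  unfold cmM dx
  split_ifs with h
  · change x R l * (x R k * m j) - x R k * (x R l * m j) = _
    rw [sub_mul, mul_assoc, mul_assoc]
  · change (0 : FA R) = _
    rw [zero_mul]

lemma D_apply (k l : Fin 3) (m : M R) (j : Fin 2) : D R k l m j = del R k l (m j) +
    bco k j • ((aco k l 0 • m 0 + aco k l 1 • m 1) * x R l) := rfl

lemma E_apply (k l : Fin 3) (m : M R) (j : Fin 2) : E R k l m j = sec R k l (m j) +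
    bco k j • ((aco k l 0 • del R k l (m 0) + aco k l 1 • del R k l (m 1)) * x R l) := rfl

lemma lx_apply (c : Fin 3) (m : M R) (j : Fin 2) : lx R c m j = x R c * m j := rfl

lemma D_lx (k l c : Fin 3) (m : M R) :
    D R k l (lx R c m) = lx R c (D R k l m) + cmM R k l c m := by
  funext j
  rw [D_apply, Pi.add_apply, cmM_apply, lx_apply, lx_apply, lx_apply, lx_apply, del_mul, del_x,
    D_apply, mul_add]
  have : (aco k l 0 • (x R c * m 0) + aco k l 1 • (x R c * m 1)) * x R l =
      x R c * ((aco k l 0 • m 0 + aco k l 1 • m 1) * x R l) := by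
    rw [← mul_smul_comm, ← mul_smul_comm, ← mul_add, mul_assoc]
  rw [this, mul_smul_comm]
  abel

lemma E_lx (k l c : Fin 3) (m : M R) :
    E R k l (lx R c m) = lx R c (E R k l m) + cmM R k l c (D R k l m) -
      cmM R k l c (lx R l m) := by
  funext j
  rw [E_apply, Pi.sub_apply, Pi.add_apply, cmM_apply, cmM_apply, lx_apply, lx_apply, lx_apply,
    lx_apply, lx_apply, sec_mul, del_mul, del_mul, del_x, sec_x, E_apply, D_apply, mul_add, mul_add]
  have : (aco k l 0 • (dx R k l c * m 0 + x R c * del R k l (m 0)) +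
      aco k l 1 • (dx R k l c * m 1 + x R c * del R k l (m 1))) * x R l =
      dx R k l c * ((aco k l 0 • m 0 + aco k l 1 • m 1) * x R l) +
      x R c * ((aco k l 0 • del R k l (m 0) + aco k l 1 • del R k l (m 1)) * x R l) := by
    rw [← mul_assoc, ← mul_assoc, ← add_mul, mul_add, mul_add, smul_add, smul_add,
      mul_smul_comm, mul_smul_comm, mul_smul_comm, mul_smul_comm]
    congr 1
    abel
  rw [this, smul_add, mul_smul_comm, mul_smul_comm, neg_mul, mul_assoc]
  abel

lemma bco_castSucc (i j : Fin 2) : bco i.castSucc j = if j = i then 1 else 0 := by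
  revert i j
  decide

lemma D_z (k l : Fin 3) (i : Fin 2) :
    D R k l (z R i.castSucc) = aco k l i • lx R l (z R k) := by
  funext j
  rw [D_apply, Pi.smul_apply, lx_apply]
  unfold z
  rw [del_int, zero_add]
  have h : (aco k l 0 • ((bco i.castSucc 0 : ℤ) : FA R) +
      aco k l 1 • ((bco i.castSucc 1 : ℤ) : FA R)) = ((aco k l i : ℤ) : FA R) := by
    rw [bco_castSucc, bco_castSucc]
    fin_cases i
    · simp
    · simp
  rw [h, zsmul_eq_mul, zsmul_eq_mul, ← (Int.cast_commute (bco k j) (x R l)).eq, ← mul_assoc,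
    ← mul_assoc, (Int.cast_commute (bco k j) ((aco k l i : ℤ) : FA R)).eq]

lemma E_z (k l : Fin 3) (i : Fin 2) : E R k l (z R i.castSucc) = 0 := by
  funext j
  rw [E_apply]
  unfold z
  rw [del_int, del_int, sec_int, smul_zero, smul_zero, add_zero, zero_mul, smul_zero, add_zero]
  rfl

lemma z_eq (k : Fin 3) : z R k = bco k 0 • z R (Fin.castSucc 0) + bco k 1 • z R (Fin.castSucc 1) := by
  funext j
  unfold z
  rw [Pi.add_apply, Pi.smul_apply, Pi.smul_apply, bco_castSucc, bco_castSucc]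
  fin_cases j
  · simp
  · simp

/-! ### the operators on `M ⊗ M` -/

/-- left multiplication by `x_c` on the left factor -/
def lx2 (c : Fin 3) : T R →ₗ[R] T R := TensorProduct.map (lx R c) LinearMap.id

def cmT (k l c : Fin 3) : T R →ₗ[R] T R := TensorProduct.map (cmM R k l c) LinearMap.id

lemma D2_tmul (k l : Fin 3) (m m' : M R) :
    D2 R k l (m ⊗ₜ m') = D R k l m ⊗ₜ m' + m ⊗ₜ D R k l m' := rfl

lemma E2_tmul (k l : Fin 3) (m m' : M R) :
    E2 R k l (m ⊗ₜ m') = E R k l m ⊗ₜ m' + m ⊗ₜ E R k l m' + D R k l m ⊗ₜ D R k l m' := rfl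

lemma lx2_tmul (c : Fin 3) (m m' : M R) : lx2 R c (m ⊗ₜ m') = lx R c m ⊗ₜ m' := rfl

lemma cmT_tmul (k l c : Fin 3) (m m' : M R) : cmT R k l c (m ⊗ₜ m') = cmM R k l c m ⊗ₜ m' := rfl

lemma D2_lx2 (k l c : Fin 3) (τ : T R) :
    D2 R k l (lx2 R c τ) = lx2 R c (D2 R k l τ) + cmT R k l c τ := by
  induction τ using TensorProduct.induction_on with
  | zero => rw [map_zero, map_zero, map_zero, map_zero, add_zero]
  | tmul m m' =>
    rw [lx2_tmul, D2_tmul, D2_tmul, map_add, lx2_tmul, lx2_tmul, cmT_tmul, D_lx,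
      TensorProduct.add_tmul]
    abel
  | add a b ha hb =>
    rw [map_add, map_add, ha, hb, map_add, map_add, map_add]
    abel

lemma E2_lx2 (k l c : Fin 3) (τ : T R) :
    E2 R k l (lx2 R c τ) = lx2 R c (E2 R k l τ) + cmT R k l c (D2 R k l τ) -
      cmT R k l c (lx2 R l τ) := by
  induction τ using TensorProduct.induction_on with
  | zero => simp only [map_zero, add_zero, sub_zero]
  | tmul m m' =>
    rw [lx2_tmul, E2_tmul, E2_tmul, map_add, map_add, lx2_tmul, lx2_tmul, lx2_tmul, D2_tmul,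
      map_add, cmT_tmul, cmT_tmul, lx2_tmul, cmT_tmul, D_lx, E_lx, TensorProduct.add_tmul,
      TensorProduct.sub_tmul, TensorProduct.add_tmul]
    abel
  | add a b ha hb =>
    simp only [map_add] at ha hb ⊢
    rw [ha, hb]
    abel

lemma cmM_ne {k c : Fin 3} (l : Fin 3) (h : c ≠ k) (m : M R) : cmM R k l c m = 0 := by
  unfold cmM
  rw [if_neg h]
  rfl

lemma cmT_ne {k c : Fin 3} (l : Fin 3) (h : c ≠ k) (τ : T R) : cmT R k l c τ = 0 := by
  unfold cmT cmM
  rw [if_neg h, TensorProduct.map_zero_left]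
  rfl

lemma cmM_eq (k l : Fin 3) (m : M R) :
    cmM R k l k m = lx R l (lx R k m) - lx R k (lx R l m) := by
  unfold cmM
  rw [if_pos rfl]
  rfl

lemma cmT_eq (k l : Fin 3) (τ : T R) :
    cmT R k l k τ = lx2 R l (lx2 R k τ) - lx2 R k (lx2 R l τ) := by
  induction τ using TensorProduct.induction_on with
  | zero => simp only [map_zero, sub_zero]
  | tmul m m' => rw [cmT_tmul, cmM_eq, lx2_tmul, lx2_tmul, lx2_tmul, lx2_tmul,
      TensorProduct.sub_tmul]
  | add a b ha hb =>
    simp only [map_add] at ha hb ⊢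
    rw [ha, hb]
    abel

/-! ### evaluation of the tries -/

def ev1 : Tr1 → M R
  | .nil => 0
  | .node a b t0 t1 t2 => a • z R (Fin.castSucc 0) + b • z R (Fin.castSucc 1) +
      lx R 0 (ev1 t0) + lx R 1 (ev1 t1) + lx R 2 (ev1 t2)

def ev2 : Tr2 → T R
  | .nil => 0
  | .node a b t0 t1 t2 => z R (Fin.castSucc 0) ⊗ₜ ev1 R a + z R (Fin.castSucc 1) ⊗ₜ ev1 R b +
      lx2 R 0 (ev2 t0) + lx2 R 1 (ev2 t1) + lx2 R 2 (ev2 t2)

lemma ev1_nil : ev1 R .nil = 0 := rfl

lemma ev1_node (a b : ℤ) (t0 t1 t2 : Tr1) : ev1 R (.node a b t0 t1 t2) =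
    a • z R (Fin.castSucc 0) + b • z R (Fin.castSucc 1) +
      lx R 0 (ev1 R t0) + lx R 1 (ev1 R t1) + lx R 2 (ev1 R t2) := rfl

lemma ev2_nil : ev2 R .nil = 0 := rfl

lemma ev2_node (a b : Tr1) (t0 t1 t2 : Tr2) : ev2 R (.node a b t0 t1 t2) =
    z R (Fin.castSucc 0) ⊗ₜ ev1 R a + z R (Fin.castSucc 1) ⊗ₜ ev1 R b +
      lx2 R 0 (ev2 R t0) + lx2 R 1 (ev2 R t1) + lx2 R 2 (ev2 R t2) := rfl

lemma ev1_add (t s : Tr1) : ev1 R (t.add s) = ev1 R t + ev1 R s := by
  induction t generalizing s with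
  | nil =>
    rw [ev1_nil, zero_add]
    rfl
  | node a b t0 t1 t2 h0 h1 h2 =>
    cases s with
    | nil =>
      rw [ev1_nil, add_zero]
      rfl
    | node a' b' s0 s1 s2 =>
      change ev1 R (.node (a + a') (b + b') (t0.add s0) (t1.add s1) (t2.add s2)) = _
      rw [ev1_node, ev1_node, ev1_node, h0, h1, h2, add_smul, add_smul, map_add, map_add, map_add]
      abel

lemma ev2_add (t s : Tr2) : ev2 R (t.add s) = ev2 R t + ev2 R s := by
  induction t generalizing s with
  | nil =>
    rw [ev2_nil, zero_add]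
    rfl
  | node a b t0 t1 t2 h0 h1 h2 =>
    cases s with
    | nil =>
      rw [ev2_nil, add_zero]
      rfl
    | node a' b' s0 s1 s2 =>
      change ev2 R (.node (a.add a') (b.add b') (t0.add s0) (t1.add s1) (t2.add s2)) = _
      rw [ev2_node, ev2_node, ev2_node, h0, h1, h2, ev1_add, ev1_add, TensorProduct.tmul_add,
        TensorProduct.tmul_add, map_add, map_add, map_add]
      abel

lemma ev1_smul (n : ℤ) (t : Tr1) : ev1 R (t.smul n) = n • ev1 R t := by
  induction t with
  | nil =>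
    rw [ev1_nil, smul_zero]
    rfl
  | node a b t0 t1 t2 h0 h1 h2 =>
    change ev1 R (.node (n * a) (n * b) (t0.smul n) (t1.smul n) (t2.smul n)) = _
    rw [ev1_node, ev1_node, h0, h1, h2, mul_smul, mul_smul, map_zsmul, map_zsmul, map_zsmul,
      smul_add, smul_add, smul_add, smul_add]

lemma ev2_smul (n : ℤ) (t : Tr2) : ev2 R (t.smul n) = n • ev2 R t := by
  induction t with
  | nil =>
    rw [ev2_nil, smul_zero]
    rfl
  | node a b t0 t1 t2 h0 h1 h2 =>
    change ev2 R (.node (a.smul n) (b.smul n) (t0.smul n) (t1.smul n) (t2.smul n)) = _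
    rw [ev2_node, ev2_node, h0, h1, h2, ev1_smul, ev1_smul, map_zsmul, map_zsmul, map_zsmul,
      smul_add, smul_add, smul_add, smul_add, TensorProduct.tmul_smul, TensorProduct.tmul_smul]

lemma ev1_X (c : Fin 3) (t : Tr1) : ev1 R (t.X c) = lx R c (ev1 R t) := by
  cases t with
  | nil =>
    rw [ev1_nil, map_zero]
    rfl
  | node a b t0 t1 t2 =>
    fin_cases c
    · change ev1 R (.node 0 0 (.node a b t0 t1 t2) .nil .nil) = lx R 0 _
      rw [ev1_node, ev1_nil, zero_smul, zero_smul, map_zero, map_zero, zero_add, zero_add, add_zero,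
        add_zero]
    · change ev1 R (.node 0 0 .nil (.node a b t0 t1 t2) .nil) = lx R 1 _
      rw [ev1_node, ev1_nil, zero_smul, zero_smul, map_zero, map_zero, zero_add, zero_add, zero_add,
        add_zero]
    · change ev1 R (.node 0 0 .nil .nil (.node a b t0 t1 t2)) = lx R 2 _
      rw [ev1_node, ev1_nil, zero_smul, zero_smul, map_zero, map_zero, zero_add, zero_add, zero_add,
        zero_add]

lemma ev2_X (c : Fin 3) (t : Tr2) : ev2 R (t.X c) = lx2 R c (ev2 R t) := by
  cases t with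
  | nil =>
    rw [ev2_nil, map_zero]
    rfl
  | node a b t0 t1 t2 =>
    fin_cases c
    · change ev2 R (.node .nil .nil (.node a b t0 t1 t2) .nil .nil) = lx2 R 0 _
      rw [ev2_node, ev2_nil, ev1_nil, TensorProduct.tmul_zero, TensorProduct.tmul_zero, map_zero,
        map_zero, zero_add, zero_add, add_zero, add_zero]
    · change ev2 R (.node .nil .nil .nil (.node a b t0 t1 t2) .nil) = lx2 R 1 _
      rw [ev2_node, ev2_nil, ev1_nil, TensorProduct.tmul_zero, TensorProduct.tmul_zero, map_zero,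
        map_zero, zero_add, zero_add, zero_add, add_zero]
    · change ev2 R (.node .nil .nil .nil .nil (.node a b t0 t1 t2)) = lx2 R 2 _
      rw [ev2_node, ev2_nil, ev1_nil, TensorProduct.tmul_zero, TensorProduct.tmul_zero, map_zero,
        map_zero, zero_add, zero_add, zero_add, zero_add]

lemma ev1_cm (k l : Fin 3) (t : Tr1) : ev1 R (t.cm k l) = cmM R k l k (ev1 R t) := by
  unfold Tr1.cm
  rw [ev1_add, ev1_smul, ev1_X, ev1_X, ev1_X, ev1_X, cmM_eq, neg_one_zsmul, sub_eq_add_neg]

lemma ev2_cm (k l : Fin 3) (t : Tr2) : ev2 R (t.cm k l) = cmT R k l k (ev2 R t) := by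
  unfold Tr2.cm
  rw [ev2_add, ev2_smul, ev2_X, ev2_X, ev2_X, ev2_X, cmT_eq, neg_one_zsmul, sub_eq_add_neg]

lemma ev1_lf (a b : ℤ) : ev1 R (Tr1.lf a b) =
    a • z R (Fin.castSucc 0) + b • z R (Fin.castSucc 1) := by
  unfold Tr1.lf
  split_ifs with h
  · rw [h.1, h.2, zero_smul, zero_smul, add_zero]
    rfl
  · rw [ev1_node, ev1_nil, map_zero, map_zero, map_zero, add_zero, add_zero, add_zero]

lemma sum_cmM (k l : Fin 3) (m0 m1 m2 : M R) :
    cmM R k l 0 m0 + cmM R k l 1 m1 + cmM R k l 2 m2 =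
      cmM R k l k (if k = 0 then m0 else if k = 1 then m1 else m2) := by
  fin_cases k
  · change cmM R 0 l 0 m0 + cmM R 0 l 1 m1 + cmM R 0 l 2 m2 = cmM R 0 l 0 m0
    rw [cmM_ne R l (by decide : (1 : Fin 3) ≠ 0), cmM_ne R l (by decide : (2 : Fin 3) ≠ 0)]
    abel
  · change cmM R 1 l 0 m0 + cmM R 1 l 1 m1 + cmM R 1 l 2 m2 = cmM R 1 l 1 m1
    rw [cmM_ne R l (by decide : (0 : Fin 3) ≠ 1), cmM_ne R l (by decide : (2 : Fin 3) ≠ 1)]
    abel
  · change cmM R 2 l 0 m0 + cmM R 2 l 1 m1 + cmM R 2 l 2 m2 = cmM R 2 l 2 m2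
    rw [cmM_ne R l (by decide : (0 : Fin 3) ≠ 2), cmM_ne R l (by decide : (1 : Fin 3) ≠ 2)]
    abel

lemma sum_cmT (k l : Fin 3) (m0 m1 m2 : T R) :
    cmT R k l 0 m0 + cmT R k l 1 m1 + cmT R k l 2 m2 =
      cmT R k l k (if k = 0 then m0 else if k = 1 then m1 else m2) := by
  fin_cases k
  · change cmT R 0 l 0 m0 + cmT R 0 l 1 m1 + cmT R 0 l 2 m2 = cmT R 0 l 0 m0
    rw [cmT_ne R l (by decide : (1 : Fin 3) ≠ 0), cmT_ne R l (by decide : (2 : Fin 3) ≠ 0)]
    abel
  · change cmT R 1 l 0 m0 + cmT R 1 l 1 m1 + cmT R 1 l 2 m2 = cmT R 1 l 1 m1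
    rw [cmT_ne R l (by decide : (0 : Fin 3) ≠ 1), cmT_ne R l (by decide : (2 : Fin 3) ≠ 1)]
    abel
  · change cmT R 2 l 0 m0 + cmT R 2 l 1 m1 + cmT R 2 l 2 m2 = cmT R 2 l 2 m2
    rw [cmT_ne R l (by decide : (0 : Fin 3) ≠ 2), cmT_ne R l (by decide : (1 : Fin 3) ≠ 2)]
    abel

lemma ev1_sel (k : Fin 3) (t0 t1 t2 : Tr1) : ev1 R (Tr1.sel k t0 t1 t2) =
    if k = 0 then ev1 R t0 else if k = 1 then ev1 R t1 else ev1 R t2 := by
  unfold Tr1.sel
  split_ifs <;> rfl

lemma ev2_sel (k : Fin 3) (t0 t1 t2 : Tr2) : ev2 R (Tr2.sel k t0 t1 t2) =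
    if k = 0 then ev2 R t0 else if k = 1 then ev2 R t1 else ev2 R t2 := by
  unfold Tr2.sel
  split_ifs <;> rfl

lemma ev1_D (k l : Fin 3) (t : Tr1) : ev1 R (t.D k l) = D R k l (ev1 R t) := by
  induction t with
  | nil =>
    rw [ev1_nil, map_zero]
    rfl
  | node a b t0 t1 t2 h0 h1 h2 =>
    have h : a • aco k l 0 • lx R l (z R k) + b • aco k l 1 • lx R l (z R k) =
        lx R l ((bco k 0 * (aco k l 0 * a + aco k l 1 * b)) • z R (Fin.castSucc 0) +
          (bco k 1 * (aco k l 0 * a + aco k l 1 * b)) • z R (Fin.castSucc 1)) := by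
      rw [← mul_smul, ← mul_smul, ← add_smul, ← map_zsmul]
      conv_lhs => rw [z_eq]
      rw [smul_add, ← mul_smul, ← mul_smul]
      congr 3
      · ring
      · ring
    change ev1 R (Tr1.add (.node 0 0 (t0.D k l) (t1.D k l) (t2.D k l))
      (Tr1.add (Tr1.X l (Tr1.lf (bco k 0 * (aco k l 0 * a + aco k l 1 * b))
        (bco k 1 * (aco k l 0 * a + aco k l 1 * b)))) (Tr1.cm k l (Tr1.sel k t0 t1 t2)))) = _
    rw [ev1_add, ev1_add, ev1_X, ev1_lf, ev1_cm, ev1_sel, ev1_node, ev1_node, h0, h1, h2,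
      ← sum_cmM, ← h, zero_smul, zero_smul]
    simp only [map_add, map_zsmul, D_z, D_lx]
    abel

lemma ev1_E (k l : Fin 3) (t : Tr1) : ev1 R (t.E k l) = E R k l (ev1 R t) := by
  induction t with
  | nil =>
    rw [ev1_nil, map_zero]
    rfl
  | node a b t0 t1 t2 h0 h1 h2 =>
    change ev1 R (Tr1.add (.node 0 0 (t0.E k l) (t1.E k l) (t2.E k l))
      (Tr1.cm k l (Tr1.add (Tr1.D k l (Tr1.sel k t0 t1 t2))
        (Tr1.smul (-1) (Tr1.X l (Tr1.sel k t0 t1 t2)))))) = _
    have e1 : D R k l (if k = 0 then ev1 R t0 else if k = 1 then ev1 R t1 else ev1 R t2) =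
        (if k = 0 then D R k l (ev1 R t0) else if k = 1 then D R k l (ev1 R t1) else
          D R k l (ev1 R t2)) := by
      split_ifs <;> rfl
    have e2 : lx R l (if k = 0 then ev1 R t0 else if k = 1 then ev1 R t1 else ev1 R t2) =
        (if k = 0 then lx R l (ev1 R t0) else if k = 1 then lx R l (ev1 R t1) else
          lx R l (ev1 R t2)) := by
      split_ifs <;> rfl
    rw [ev1_add, ev1_cm, ev1_add, ev1_D, ev1_smul, ev1_X, ev1_sel, map_add, e1, e2, neg_one_zsmul,
      map_neg, ← sum_cmM, ← sum_cmM, ev1_node, ev1_node, h0, h1, h2, zero_smul, zero_smul]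
    simp only [map_add, map_zsmul, E_z, E_lx, smul_zero]
    abel

lemma ev2_co (k l : Fin 3) (a b : Tr1) : ev1 R (Tr2.co k l a b) =
    aco k l 0 • ev1 R a + aco k l 1 • ev1 R b := by
  unfold Tr2.co
  rw [ev1_add, ev1_smul, ev1_smul]

lemma ev2_lf (a b : Tr1) : ev2 R (Tr2.lf a b) =
    z R (Fin.castSucc 0) ⊗ₜ ev1 R a + z R (Fin.castSucc 1) ⊗ₜ ev1 R b := by
  unfold Tr2.lf
  rw [ev2_node, ev2_nil, map_zero, map_zero, map_zero, add_zero, add_zero, add_zero]

lemma ev2_lf_co (k l : Fin 3) (a b : Tr1) :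
    lx2 R l (ev2 R (Tr2.lf ((Tr2.co k l a b).smul (bco k 0)) ((Tr2.co k l a b).smul (bco k 1)))) =
      (aco k l 0 • lx R l (z R k)) ⊗ₜ ev1 R a + (aco k l 1 • lx R l (z R k)) ⊗ₜ ev1 R b := by
  rw [ev2_lf, ev1_smul, ev1_smul, TensorProduct.tmul_smul, TensorProduct.tmul_smul,
    TensorProduct.smul_tmul', TensorProduct.smul_tmul', ← TensorProduct.add_tmul, ← z_eq, ev2_co,
    lx2_tmul, TensorProduct.tmul_add, TensorProduct.tmul_smul, TensorProduct.tmul_smul,
    TensorProduct.smul_tmul', TensorProduct.smul_tmul']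

lemma ev2_D (k l : Fin 3) (t : Tr2) : ev2 R (t.D k l) = D2 R k l (ev2 R t) := by
  induction t with
  | nil =>
    rw [ev2_nil, map_zero]
    rfl
  | node a b t0 t1 t2 h0 h1 h2 =>
    change ev2 R (Tr2.add (.node (a.D k l) (b.D k l) (t0.D k l) (t1.D k l) (t2.D k l))
      (Tr2.add (Tr2.X l (Tr2.lf ((Tr2.co k l a b).smul (bco k 0))
        ((Tr2.co k l a b).smul (bco k 1)))) (Tr2.cm k l (Tr2.sel k t0 t1 t2)))) = _
    rw [ev2_add, ev2_add, ev2_X, ev2_lf_co, ev2_cm, ev2_sel, ev2_node, ev2_node, h0, h1, h2,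
      ev1_D, ev1_D, ← sum_cmT]
    simp only [map_add, D2_tmul, D_z, D2_lx2]
    abel

lemma ev2_E (k l : Fin 3) (t : Tr2) : ev2 R (t.E k l) = E2 R k l (ev2 R t) := by
  induction t with
  | nil =>
    rw [ev2_nil, map_zero]
    rfl
  | node a b t0 t1 t2 h0 h1 h2 =>
    change ev2 R (Tr2.add (.node (a.E k l) (b.E k l) (t0.E k l) (t1.E k l) (t2.E k l))
      (Tr2.add (Tr2.X l (Tr2.lf ((Tr2.co k l (a.D k l) (b.D k l)).smul (bco k 0))
        ((Tr2.co k l (a.D k l) (b.D k l)).smul (bco k 1))))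
        (Tr2.cm k l (Tr2.add (Tr2.D k l (Tr2.sel k t0 t1 t2))
          (Tr2.smul (-1) (Tr2.X l (Tr2.sel k t0 t1 t2))))))) = _
    have e1 : D2 R k l (if k = 0 then ev2 R t0 else if k = 1 then ev2 R t1 else ev2 R t2) =
        (if k = 0 then D2 R k l (ev2 R t0) else if k = 1 then D2 R k l (ev2 R t1) else
          D2 R k l (ev2 R t2)) := by
      split_ifs <;> rfl
    have e2 : lx2 R l (if k = 0 then ev2 R t0 else if k = 1 then ev2 R t1 else ev2 R t2) =
        (if k = 0 then lx2 R l (ev2 R t0) else if k = 1 then lx2 R l (ev2 R t1) else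
          lx2 R l (ev2 R t2)) := by
      split_ifs <;> rfl
    rw [ev2_add, ev2_add, ev2_X, ev2_lf_co, ev2_cm, ev2_add, ev2_D, ev2_smul, ev2_X, ev2_sel,
      map_add, e1, e2, neg_one_zsmul, map_neg, ← sum_cmT, ← sum_cmT, ev2_node, ev2_node, h0, h1,
      h2, ev1_E, ev1_E, ev1_D, ev1_D]
    simp only [map_add, E2_tmul, E_z, D_z, E2_lx2, TensorProduct.zero_tmul]
    abel

lemma ev1_isZero (t : Tr1) (h : t.isZero = true) : ev1 R t = 0 := by
  induction t with
  | nil => rfl
  | node a b t0 t1 t2 h0 h1 h2 =>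
    have h' : ((a == 0) && (b == 0) && t0.isZero && t1.isZero && t2.isZero) = true := h
    simp only [Bool.and_eq_true, beq_iff_eq] at h'
    obtain ⟨⟨⟨⟨ha, hb⟩, e0⟩, e1⟩, e2⟩ := h'
    rw [ev1_node, ha, hb, h0 e0, h1 e1, h2 e2, zero_smul, zero_smul, map_zero, map_zero, map_zero]
    simp only [add_zero]

lemma ev2_isZero (t : Tr2) (h : t.isZero = true) : ev2 R t = 0 := by
  induction t with
  | nil => rfl
  | node a b t0 t1 t2 h0 h1 h2 =>
    have h' : (a.isZero && b.isZero && t0.isZero && t1.isZero && t2.isZero) = true := h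
    simp only [Bool.and_eq_true] at h'
    obtain ⟨⟨⟨⟨ha, hb⟩, e0⟩, e1⟩, e2⟩ := h'
    rw [ev2_node, ev1_isZero R a ha, ev1_isZero R b hb, h0 e0, h1 e1, h2 e2,
      TensorProduct.tmul_zero, TensorProduct.tmul_zero, map_zero, map_zero, map_zero]
    simp only [add_zero]

lemma z_zero : z R 0 = z R (Fin.castSucc (0 : Fin 2)) := rfl

lemma z_one : z R 1 = z R (Fin.castSucc (1 : Fin 2)) := rfl

lemma ev2_om : ev2 R omT = om R := by
  unfold omT om
  rw [ev2_node, ev1_node, ev1_node, ev2_nil, ev1_nil, z_zero, z_one]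
  simp only [map_zero, add_zero, zero_smul, one_smul, zero_add, neg_one_zsmul,
    TensorProduct.tmul_neg]
  abel

/-! ### the Horner scheme -/

lemma sum_tl {A : Type} [AddCommGroup A] (f : ℤ × List (Fin 3) → A) (L : List (ℤ × List (Fin 3)))
    (h : ∀ p ∈ L, p.2 ≠ []) : (L.map f).sum =
      ((tl 0 L).map fun p => f (p.1, 0 :: p.2)).sum +
      (((tl 1 L).map fun p => f (p.1, 1 :: p.2)).sum +
      ((tl 2 L).map fun p => f (p.1, 2 :: p.2)).sum) := by
  induction L with
  | nil =>
    change (0 : A) = 0 + (0 + 0)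
    rw [add_zero, add_zero]
  | cons p L ih =>
    obtain ⟨a, w⟩ := p
    have ih' := ih fun q hq => h q (List.mem_cons_of_mem _ hq)
    cases w with
    | nil => exact absurd rfl (h (a, []) List.mem_cons_self)
    | cons c w =>
      rw [List.map_cons, List.sum_cons, ih']
      fin_cases c
      · change f (a, 0 :: w) + _ = (((a, w) :: tl 0 L).map _).sum + (((tl 1 L).map _).sum +
          ((tl 2 L).map _).sum)
        rw [List.map_cons, List.sum_cons, add_assoc]
      · change f (a, 1 :: w) + _ = ((tl 0 L).map _).sum + ((((a, w) :: tl 1 L).map _).sum +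
          ((tl 2 L).map _).sum)
        rw [List.map_cons, List.sum_cons]
        abel
      · change f (a, 2 :: w) + _ = ((tl 0 L).map _).sum + (((tl 1 L).map _).sum +
          (((a, w) :: tl 2 L).map _).sum)
        rw [List.map_cons, List.sum_cons]
        abel

lemma mem_tl (l : Fin 3) (L : List (ℤ × List (Fin 3))) (n : ℕ) (h : ∀ p ∈ L, p.2.length = n + 1) :
    ∀ p ∈ tl l L, p.2.length = n := by
  induction L with
  | nil =>
    intro p hp
    exact absurd hp (List.not_mem_nil)
  | cons q L ih =>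
    obtain ⟨a, w⟩ := q
    have ih' := ih fun q hq => h q (List.mem_cons_of_mem _ hq)
    cases w with
    | nil =>
      intro p hp
      exact ih' p hp
    | cons c w =>
      intro p hp
      have hw := h (a, c :: w) List.mem_cons_self
      change p ∈ (if c = l then (a, w) :: tl l L else tl l L) at hp
      split_ifs at hp with hc
      · rcases List.mem_cons.1 hp with h1 | h1
        · rw [h1]
          simpa using hw
        · exact ih' p h1
      · exact ih' p hp

lemma sum_lin {A B : Type} [AddCommGroup A] [AddCommGroup B] [Module R A] [Module R B]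
    (F : A →ₗ[R] B) (g : ℤ × List (Fin 3) → A) (L : List (ℤ × List (Fin 3))) :
    (L.map fun p => p.1 • F (g p)).sum = F ((L.map fun p => p.1 • g p).sum) := by
  induction L with
  | nil =>
    change (0 : B) = F 0
    rw [map_zero]
  | cons p L ih => rw [List.map_cons, List.sum_cons, ih, List.map_cons, List.sum_cons, map_add,
      map_zsmul]

lemma ev2_hor (n : ℕ) (L : List (ℤ × List (Fin 3))) (h : ∀ p ∈ L, p.2.length = n) :
    ev2 R (hor n L) = (L.map fun p => p.1 • dW R p.2 (om R)).sum := by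
  induction n generalizing L with
  | zero =>
    cases L with
    | nil => rfl
    | cons q L =>
      change ev2 R (omT.smul (((q :: L).map fun q => q.1).sum)) = _
      rw [ev2_smul, ev2_om]
      have : ∀ L : List (ℤ × List (Fin 3)), (∀ p ∈ L, p.2.length = 0) →
          (L.map fun q => q.1).sum • om R = (L.map fun p => p.1 • dW R p.2 (om R)).sum := by
        intro L
        induction L with
        | nil =>
          intro _
          change (0 : ℤ) • om R = 0
          rw [zero_smul]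
        | cons p L ih =>
          intro h
          rw [List.map_cons, List.sum_cons, List.map_cons, List.sum_cons, add_smul,
            ih fun q hq => h q (List.mem_cons_of_mem _ hq)]
          have h1 := h p List.mem_cons_self
          rw [List.length_eq_zero_iff.1 h1]
          rfl
      exact this _ h
  | succ n ih =>
    cases L with
    | nil => rfl
    | cons q L =>
      change ev2 R (((hor n (tl 0 (q :: L))).D (sk 0) 0).add
        (((hor n (tl 1 (q :: L))).D (sk 1) 1).add ((hor n (tl 2 (q :: L))).D (sk 2) 2))) = _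
      rw [ev2_add, ev2_add, ev2_D, ev2_D, ev2_D, ih _ (mem_tl _ _ _ h), ih _ (mem_tl _ _ _ h),
        ih _ (mem_tl _ _ _ h), sum_tl _ (q :: L) (fun p hp he => by
          have := h p hp
          rw [he] at this
          exact absurd this (by simp))]
      rw [← sum_lin, ← sum_lin, ← sum_lin]
      rfl

theorem horner : (hor 6 u0).isZero = true := by decide +kernel

/-- see above -/
theorem syz : S_syz := by
  intro R _
  have h : ∀ p ∈ u0, p.2.length = 6 := by decide +kernel
  rw [← ev2_hor R 6 u0 h]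
  exact ev2_isZero R _ horner


/-! ### the pairing -/

lemma bas_aux (w : FreeMonoid (Fin 3)) : FreeAlgebra.basisFreeMonoid R (Fin 3) w =
    (w.toList.map (FreeAlgebra.ι R)).prod := by
  unfold FreeAlgebra.basisFreeMonoid
  rw [Module.Basis.map_apply, Finsupp.coe_basisSingleOne]
  change MonoidAlgebra.lift R (FreeAlgebra R (Fin 3)) (FreeMonoid (Fin 3))
    (FreeMonoid.lift (FreeAlgebra.ι R)) (MonoidAlgebra.single w (1 : R)) = _
  rw [MonoidAlgebra.lift_single, one_smul, FreeMonoid.lift_apply]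

lemma bas_apply (w : FreeMonoid (Fin 3)) : bas R w = wd R w.toList := bas_aux R w

lemma gf_wd (i j : Fin 2) (r : List (Fin 3)) :
    gf R i j (wd R r) = if r ∈ gl i j then 1 else 0 := by
  have h : wd R r = bas R (FreeMonoid.ofList r) := by rw [bas_apply]; rfl
  rw [h]
  unfold gf wfun
  rw [Module.Basis.constr_basis]
  change (((if r ∈ gl i j then 1 else 0 : ℤ)) : R) = _
  split_ifs <;> simp

lemma rev_mul (a b : FA R) : rev R (a * b) = rev R b * rev R a := by
  change MulOpposite.unop (revOp R (a * b)) = MulOpposite.unop (revOp R b) * MulOpposite.unop (revOp R a)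
  rw [map_mul]
  rfl

lemma rev_x (c : Fin 3) : rev R (x R c) = x R c := by
  change MulOpposite.unop (revOp R (x R c)) = x R c
  unfold revOp
  rw [liftA_x]
  rfl

lemma rev_int (n : ℤ) : rev R (n : FA R) = (n : FA R) := by
  change MulOpposite.unop (revOp R (n : FA R)) = (n : FA R)
  rw [map_intCast]
  rfl

lemma pr_apply (m m' : M R) : pr R m m' = ∑ i, ∑ j, gf R i j (rev R (m i) * m' j) := rfl

lemma pr_lx (c : Fin 3) (m m' : M R) : pr R (lx R c m) m' = pr R m (lx R c m') := by
  rw [pr_apply, pr_apply]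
  refine Finset.sum_congr rfl fun i _ => Finset.sum_congr rfl fun j _ => ?_
  rw [lx_apply, lx_apply, rev_mul, rev_x, mul_assoc]

lemma pr_z (i : Fin 2) (m' : M R) : pr R (z R i.castSucc) m' = ∑ j, gf R i j (m' j) := by
  rw [pr_apply, Finset.sum_eq_single i]
  · refine Finset.sum_congr rfl fun j _ => ?_
    unfold z
    rw [bco_castSucc, if_pos rfl, rev_int, Int.cast_one, one_mul]
  · intro b _ hb
    refine Finset.sum_eq_zero fun j _ => ?_
    unfold z
    rw [bco_castSucc, if_neg hb, rev_int, Int.cast_zero, zero_mul, map_zero]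
  · intro h
    exact absurd (Finset.mem_univ i) h

/-- left multiplication by a word -/
def Lr (r : List (Fin 3)) : M R →ₗ[R] M R where
  toFun m j := wd R r * m j
  map_add' m m' := by
    funext j
    simp only [Pi.add_apply, mul_add]
  map_smul' a m := by
    funext j
    simp only [Pi.smul_apply, mul_smul_comm, RingHom.id_apply]

lemma Lr_apply (r : List (Fin 3)) (m : M R) (j : Fin 2) : Lr R r m j = wd R r * m j := rfl

lemma wd_cons (c : Fin 3) (r : List (Fin 3)) : wd R (c :: r) = x R c * wd R r := by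
  unfold wd
  rw [List.map_cons, List.prod_cons]

lemma wd_append (c : Fin 3) (r : List (Fin 3)) : wd R (r ++ [c]) = wd R r * x R c := by
  unfold wd
  rw [List.map_append, List.prod_append, List.map_singleton, List.prod_singleton]

/-- the functional with prefix `r` and first vector `z_i` -/
def P (i : Fin 2) (r : List (Fin 3)) : M R →ₗ[R] R := pr R (z R i.castSucc) ∘ₗ Lr R r

lemma P_apply (i : Fin 2) (r : List (Fin 3)) (m : M R) :
    P R i r m = ∑ j, gf R i j (wd R r * m j) := by
  unfold P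
  rw [LinearMap.comp_apply, pr_z]
  rfl

lemma P_lx (i : Fin 2) (r : List (Fin 3)) (c : Fin 3) (m : M R) :
    P R i r (lx R c m) = P R i (r ++ [c]) m := by
  rw [P_apply, P_apply]
  refine Finset.sum_congr rfl fun j _ => ?_
  rw [lx_apply, wd_append, mul_assoc]

lemma P_z (i j : Fin 2) (r : List (Fin 3)) :
    P R i r (z R j.castSucc) = if r ∈ gl i j then 1 else 0 := by
  rw [P_apply, Finset.sum_eq_single j]
  · unfold z
    rw [bco_castSucc, if_pos rfl, Int.cast_one, mul_one, gf_wd]
  · intro b _ hb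
    unfold z
    rw [bco_castSucc, if_neg hb, Int.cast_zero, mul_zero, map_zero]
  · intro h
    exact absurd (Finset.mem_univ j) h

lemma P_ev1 (i : Fin 2) (r : List (Fin 3)) (t : Tr1) : P R i r (ev1 R t) = ((val1 i r t : ℤ) : R) := by
  induction t generalizing r with
  | nil =>
    rw [ev1_nil, map_zero]
    change (0 : R) = ((0 : ℤ) : R)
    rw [Int.cast_zero]
  | node a b t0 t1 t2 h0 h1 h2 =>
    change _ = (((if a = 0 then 0 else if r ∈ gl i 0 then a else 0) +
      (if b = 0 then 0 else if r ∈ gl i 1 then b else 0) +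
      val1 i (r ++ [0]) t0 + val1 i (r ++ [1]) t1 + val1 i (r ++ [2]) t2 : ℤ) : R)
    have e0 : P R i r (a • z R (Fin.castSucc 0)) =
        ((if a = 0 then 0 else if r ∈ gl i 0 then a else 0 : ℤ) : R) := by
      rw [map_zsmul, P_z]
      by_cases ha : a = 0
      · rw [if_pos ha, ha, zero_smul, Int.cast_zero]
      · rw [if_neg ha]
        by_cases hr : r ∈ gl i 0
        · rw [if_pos hr, if_pos hr, zsmul_eq_mul, mul_one]
        · rw [if_neg hr, if_neg hr, smul_zero, Int.cast_zero]
    have e1 : P R i r (b • z R (Fin.castSucc 1)) =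
        ((if b = 0 then 0 else if r ∈ gl i 1 then b else 0 : ℤ) : R) := by
      rw [map_zsmul, P_z]
      by_cases ha : b = 0
      · rw [if_pos ha, ha, zero_smul, Int.cast_zero]
      · rw [if_neg ha]
        by_cases hr : r ∈ gl i 1
        · rw [if_pos hr, if_pos hr, zsmul_eq_mul, mul_one]
        · rw [if_neg hr, if_neg hr, smul_zero, Int.cast_zero]
    rw [ev1_node, map_add, map_add, map_add, map_add, e0, e1, P_lx, P_lx, P_lx, h0, h1, h2,
      Int.cast_add, Int.cast_add, Int.cast_add, Int.cast_add]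

/-- the functional with prefix `r` on `M ⊗ M` -/
def F (r : List (Fin 3)) : T R →ₗ[R] R := fT R ∘ₗ TensorProduct.map LinearMap.id (Lr R r)

lemma F_tmul (r : List (Fin 3)) (m m' : M R) : F R r (m ⊗ₜ m') = pr R m (Lr R r m') := rfl

lemma F_nil (τ : T R) : F R [] τ = fT R τ := by
  unfold F
  have : Lr R [] = LinearMap.id := by
    refine LinearMap.ext fun m => ?_
    funext j
    rw [Lr_apply]
    change (1 : FA R) * m j = m j
    rw [one_mul]
  rw [this, TensorProduct.map_id]
  rfl

lemma F_lx2 (r : List (Fin 3)) (c : Fin 3) (τ : T R) : F R r (lx2 R c τ) = F R (c :: r) τ := by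
  induction τ using TensorProduct.induction_on with
  | zero => rw [map_zero, map_zero, map_zero]
  | tmul m m' =>
    rw [lx2_tmul, F_tmul, F_tmul, pr_lx]
    congr 1
    funext j
    rw [lx_apply, Lr_apply, Lr_apply, wd_cons, mul_assoc]
  | add a b ha hb =>
    rw [map_add, map_add, map_add, ha, hb]

lemma F_z (r : List (Fin 3)) (i : Fin 2) (m' : M R) :
    F R r (z R i.castSucc ⊗ₜ m') = P R i r m' := rfl

lemma F_ev2 (r : List (Fin 3)) (t : Tr2) : F R r (ev2 R t) = ((val2 r t : ℤ) : R) := by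
  induction t generalizing r with
  | nil =>
    rw [ev2_nil, map_zero]
    change (0 : R) = ((0 : ℤ) : R)
    rw [Int.cast_zero]
  | node a b t0 t1 t2 h0 h1 h2 =>
    change _ = ((val1 0 r a + val1 1 r b + val2 (0 :: r) t0 + val2 (1 :: r) t1 +
      val2 (2 :: r) t2 : ℤ) : R)
    rw [ev2_node, map_add, map_add, map_add, map_add, F_z, F_z, F_lx2, F_lx2, F_lx2, P_ev1, P_ev1,
      h0, h1, h2, Int.cast_add, Int.cast_add, Int.cast_add, Int.cast_add]

theorem total_odd : total % 2 = 1 := by decide +kernel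

lemma part (l : Fin 3) (f : List (Fin 3) → T K) (L : List (ℤ × List (Fin 3)))
    (hf : ∀ w, f (l :: w) = E2 K (sk l) l (dW K w (om K))) (h : ∀ p ∈ L, p.2.length = 5) :
    (L.map fun p => p.1 • fT K (f (l :: p.2))).sum =
      ((val2 [] ((hor 5 L).E (sk l) l) : ℤ) : K) := by
  rw [← F_ev2, F_nil, ev2_E, ev2_hor K 5 L h, ← sum_lin, ← sum_lin]
  congr 1
  refine List.map_congr_left fun p _ => ?_
  rw [hf]

/-- see above -/
theorem num : S_num := by
  have h6 : ∀ p ∈ u0, p.2.length = 6 := by decide +kernel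
  refine ⟨((total / 2 : ℤ) : K), ?_⟩
  rw [sum_tl _ u0 (fun p hp he => by
    have := h6 p hp
    rw [he] at this
    exact absurd this (by simp))]
  have e0 := part 0 eW (tl 0 u0) (fun _ => rfl) (mem_tl 0 u0 5 h6)
  have e1 := part 1 eW (tl 1 u0) (fun _ => rfl) (mem_tl 1 u0 5 h6)
  have e2 := part 2 eW (tl 2 u0) (fun _ => rfl) (mem_tl 2 u0 5 h6)
  have ht : total = val2 [] ((hor 5 (tl 0 u0)).E (sk 0) 0) +
    val2 [] ((hor 5 (tl 1 u0)).E (sk 1) 1) + val2 [] ((hor 5 (tl 2 u0)).E (sk 2) 2) := rfl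
  have hm : (total : ℤ) = 1 + 2 * (total / 2) := by
    have := total_odd
    omega
  have hc : ((total : ℤ) : K) = 1 + 2 * ((total / 2 : ℤ) : K) := by
    conv_lhs => rw [hm]
    rw [Int.cast_add, Int.cast_mul, Int.cast_one, Int.cast_ofNat]
  rw [← hc, ht, Int.cast_add, Int.cast_add, ← e0, ← e1, ← e2, add_assoc]


end

end Pool.Agent.H927.QP.Part_syz
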